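import Pool.Agent.Helper88_SA.StmtD

/-! Existence of the solution of the dual recursion for all states. -/

namespace SA.H54

open SA

/-- closed form of the characteristic sequence -/
lemma gam_form (T z : ℝ) (hz : z < 1) (r : ℕ) :
    gam T z r = (z * (1 - z ^ r) * (T / (1 - z) + 1 / (1 - z) ^ 2) - r * T) / (1 - z) := by
  have h1 : (1 - z) ≠ 0 := by linarith
  have h2 : (z - 1) ≠ 0 := by intro h; apply h1; linarith
  induction r with
  | zero => simp [gam]
  | succ r ih =>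
    have h3 : (z - 1) ^ 2 = (1 - z) ^ 2 := by ring
    simp only [gam]
    rw [ih, h3]
    field_simp
    push_cast
    ring

lemma key (T z : ℝ) (hz : z < 1) (h : gam T z 56 = 0) :
    z * (1 - z ^ 56) * (T / (1 - z) + 1 / (1 - z) ^ 2) = 56 * T := by
  have h1 : (1 - z) ≠ 0 := by linarith
  rw [gam_form T z hz 56] at h
  rw [div_eq_zero_iff] at h
  rcases h with h | h
  · push_cast at h; linarith
  · exact absurd h h1

noncomputable def Sf (T z : ℝ) (κ : ℕ → ℕ) (N n : ℕ) : ℝ :=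
  if n < N then (dprof T z κ N (N - n)).1 else z ^ (n - N) / (1 - z)

noncomputable def Df (T z : ℝ) (κ : ℕ → ℕ) (N n r : ℕ) : ℝ :=
  if n < N then (dprof T z κ N (N - n)).2 r
  else z ^ (n - N) * ((1 - z ^ r) * (T / (1 - z) + 1 / (1 - z) ^ 2))

noncomputable def yf (T z : ℝ) (κ : ℕ → ℕ) (N n : ℕ) : ℝ :=
  if n < N then Df T z κ N (n + 1) (56 - κ n) / ((56 - κ n : ℕ) : ℝ) else T * z ^ (n - N)

lemma Sf_le (T z : ℝ) (κ : ℕ → ℕ) (N n : ℕ) (h : n ≤ N) :
    Sf T z κ N n = (dprof T z κ N (N - n)).1 := by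
  unfold Sf
  split_ifs with h1
  · rfl
  · have : n = N := by omega
    subst this
    simp [dprof, bdry]

lemma Df_le (T z : ℝ) (κ : ℕ → ℕ) (N n r : ℕ) (h : n ≤ N) :
    Df T z κ N n r = (dprof T z κ N (N - n)).2 r := by
  unfold Df
  split_ifs with h1
  · rfl
  · have : n = N := by omega
    subst this
    simp [dprof, bdry]

lemma prof_succ (T z : ℝ) (κ : ℕ → ℕ) (N n : ℕ) (h : n < N) :
    dprof T z κ N (N - n) = dstep T (56 - κ n) (dprof T z κ N (N - (n + 1))) := by
  obtain ⟨m, hm⟩ : ∃ m, N - n = m + 1 := ⟨N - n - 1, by omega⟩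
  have h2 : N - (n + 1) = m := by omega
  have h3 : N - (m + 1) = n := by omega
  rw [hm, h2]
  simp only [dprof]
  rw [h3]

lemma Sf_step (T z : ℝ) (κ : ℕ → ℕ) (N n : ℕ) (hT : 1 < T) (hz : z < 1) :
    Sf T z κ N n = Sf T z κ N (n + 1) + yf T z κ N n / T := by
  by_cases h : n < N
  · rw [Sf_le _ _ _ _ n h.le, Sf_le _ _ _ _ (n + 1) (by omega), prof_succ _ _ _ _ _ h]
    unfold yf
    rw [if_pos h, Df_le _ _ _ _ _ _ (by omega)]
    simp only [dstep]
  · unfold Sf yf
    rw [if_neg h, if_neg h, if_neg (by omega)]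
    have h1 : (1 - z) ≠ 0 := by linarith
    have h2 : n + 1 - N = (n - N) + 1 := by omega
    have h3 : T ≠ 0 := by linarith
    rw [h2, pow_succ]
    field_simp
    ring

lemma Df_zero (T z : ℝ) (κ : ℕ → ℕ) (N n : ℕ) : Df T z κ N n 0 = 0 := by
  by_cases h : n < N
  · rw [Df_le _ _ _ _ _ _ h.le, prof_succ _ _ _ _ _ h]
    simp [dstep]
  · unfold Df
    rw [if_neg h]
    simp

lemma Df_search (T z : ℝ) (κ : ℕ → ℕ) (N n r : ℕ) (hT : 1 < T) (hz : z < 1) (hr : 1 ≤ r)
    (hr2 : r ≤ 56 - cut κ N n) :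
    Df T z κ N n r = Sf T z κ N n + yf T z κ N n + Df T z κ N (n + 1) (r - 1) := by
  by_cases h : n < N
  · rw [cut, if_pos h] at hr2
    have hS := Sf_step T z κ N n hT hz
    have hy : yf T z κ N n = Df T z κ N (n + 1) (56 - κ n) / ((56 - κ n : ℕ) : ℝ) := by
      unfold yf
      rw [if_pos h]
    rw [hS, Df_le _ _ _ _ _ _ h.le, prof_succ _ _ _ _ _ h]
    simp only [dstep]
    rw [if_neg (by omega), if_pos hr2, ← Df_le _ _ _ _ _ _ (by omega : n + 1 ≤ N),
      ← Df_le _ _ _ _ _ _ (by omega : n + 1 ≤ N), ← Sf_le _ _ _ _ _ (by omega : n + 1 ≤ N), hy]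
  · unfold Df Sf yf
    rw [if_neg h, if_neg h, if_neg h, if_neg (by omega)]
    have h1 : (1 - z) ≠ 0 := by linarith
    have h2 : n + 1 - N = (n - N) + 1 := by omega
    obtain ⟨s, rfl⟩ : ∃ s, r = s + 1 := ⟨r - 1, by omega⟩
    simp only [Nat.add_sub_cancel]
    rw [h2, pow_succ z s, pow_succ z (n - N)]
    field_simp
    ring

lemma Df_wait (T z : ℝ) (κ : ℕ → ℕ) (N n r : ℕ) (hT : 1 < T) (hz : z < 1)
    (hr2 : 56 - cut κ N n < r) (hr : r ≤ 56) :
    Df T z κ N n r = Sf T z κ N n + Df T z κ N (n + 1) r := by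
  by_cases h : n < N
  · rw [cut, if_pos h] at hr2
    have hS := Sf_step T z κ N n hT hz
    have hy : yf T z κ N n = Df T z κ N (n + 1) (56 - κ n) / ((56 - κ n : ℕ) : ℝ) := by
      unfold yf
      rw [if_pos h]
    rw [hS, Df_le _ _ _ _ _ _ h.le, prof_succ _ _ _ _ _ h]
    simp only [dstep]
    rw [if_neg (by omega), if_neg (by omega), ← Df_le _ _ _ _ _ _ (by omega : n + 1 ≤ N),
      ← Df_le _ _ _ _ _ _ (by omega : n + 1 ≤ N), ← Sf_le _ _ _ _ _ (by omega : n + 1 ≤ N), hy]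
  · rw [cut, if_neg h] at hr2
    omega

lemma pos_tail (T z : ℝ) (κ : ℕ → ℕ) (N n : ℕ) (hT : 1 < T) (hz0 : 0 < z) (hz : z < 1)
    (h : N ≤ n) : 0 < Sf T z κ N n ∧ ∀ r, 1 ≤ r → r ≤ 56 → 0 < Df T z κ N n r := by
  have h1 : 0 < 1 - z := by linarith
  refine ⟨?_, ?_⟩
  · unfold Sf
    rw [if_neg (by omega)]
    positivity
  · intro r hr _
    unfold Df
    rw [if_neg (by omega)]
    have h2 : z ^ r < 1 := pow_lt_one₀ hz0.le hz (by omega)
    have h3 : 0 < 1 - z ^ r := by linarith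
    have h4 : 0 < T := by linarith
    positivity

lemma pos_all (T z : ℝ) (κ : ℕ → ℕ) (N : ℕ) (hT : 1 < T) (hz0 : 0 < z) (hz : z < 1)
    (hκ : ∀ n, κ n ≤ 55) :
    ∀ m n, m + n = N → 0 < Sf T z κ N n ∧ ∀ r, 1 ≤ r → r ≤ 56 → 0 < Df T z κ N n r := by
  intro m
  induction m with
  | zero => intro n hn; exact pos_tail T z κ N n hT hz0 hz (by omega)
  | succ m ih =>
    intro n hn
    obtain ⟨hS, hD⟩ := ih (n + 1) (by omega)
    have hT0 : 0 < T := by linarith
    have hlt : n < N := by omega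
    have hy : 0 < yf T z κ N n := by
      unfold yf
      rw [if_pos hlt]
      have h1 : 1 ≤ 56 - κ n := by have := hκ n; omega
      have h2 := hD (56 - κ n) h1 (by omega)
      have h3 : (0 : ℝ) < ((56 - κ n : ℕ) : ℝ) := by exact_mod_cast h1
      exact div_pos h2 h3
    have hS' : 0 < Sf T z κ N n := by
      rw [Sf_step T z κ N n hT hz]
      positivity
    refine ⟨hS', ?_⟩
    intro r hr hr2
    by_cases hc : r ≤ 56 - cut κ N n
    · rw [Df_search T z κ N n r hT hz hr hc]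
      have h0 : 0 ≤ Df T z κ N (n + 1) (r - 1) := by
        by_cases h1 : r = 1
        · subst h1; rw [Nat.sub_self, Df_zero]
        · exact (hD (r - 1) (by omega) (by omega)).le
      linarith
    · rw [Df_wait T z κ N n r hT hz (by omega) hr2]
      have := hD r hr hr2
      linarith

lemma pos_glob (T z : ℝ) (κ : ℕ → ℕ) (N : ℕ) (hT : 1 < T) (hz0 : 0 < z) (hz : z < 1)
    (hκ : ∀ n, κ n ≤ 55) (n : ℕ) :
    0 < Sf T z κ N n ∧ ∀ r, 1 ≤ r → r ≤ 56 → 0 < Df T z κ N n r := by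
  by_cases h : n < N
  · exact pos_all T z κ N hT hz0 hz hκ (N - n) n (by omega)
  · exact pos_tail T z κ N n hT hz0 hz (by omega)

theorem dsol : DsolStmt := by
  intro T z κ N hT hz0 hz hg hκ
  have hT0 : 0 < T := by linarith
  have h1 : 0 < 1 - z := by linarith
  refine ⟨Sf T z κ N, yf T z κ N, Df T z κ N, ⟨?_, ?_, ?_, ?_, ?_, ?_, ?_, ?_, ?_, ?_⟩, ?_⟩
  · intro n
    exact (pos_glob T z κ N hT hz0 hz hκ n).1
  · intro n
    unfold yf
    split_ifs with h
    · have h1 : 1 ≤ 56 - κ n := by have := hκ n; omega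
      have h2 := (pos_glob T z κ N hT hz0 hz hκ (n + 1)).2 (56 - κ n) h1 (by omega)
      have h3 : (0 : ℝ) < ((56 - κ n : ℕ) : ℝ) := by exact_mod_cast h1
      exact div_pos h2 h3
    · positivity
  · intro n
    exact (pos_glob T z κ N hT hz0 hz hκ n).2
  · intro n
    exact Sf_step T z κ N n hT hz
  · intro n
    unfold cut
    by_cases h : n < N
    · rw [if_pos h]
      unfold yf
      rw [if_pos h]
    · rw [if_neg h]
      unfold yf
      rw [if_neg h]
      unfold Df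
      rw [if_neg (by omega)]
      have hk := key T z hz hg
      have h2 : n + 1 - N = (n - N) + 1 := by omega
      rw [h2, pow_succ]
      have h3 : z ^ (n - N) * z * ((1 - z ^ (56 - 0)) * (T / (1 - z) + 1 / (1 - z) ^ 2))
          = z ^ (n - N) * (56 * T) := by
        rw [← hk]
        ring
      rw [h3]
      push_cast
      ring
  · intro n
    exact Df_zero T z κ N n
  · intro n r hr hr2
    exact Df_search T z κ N n r hT hz hr hr2
  · intro n r hr hr2
    exact Df_wait T z κ N n r hT hz hr hr2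
  · intro n hn
    unfold cut
    rw [if_neg (by omega)]
  · intro n hn
    unfold yf Sf
    rw [if_neg (by omega), if_neg (by omega)]
    have h2 : n + 1 - N = (n - N) + 1 := by omega
    rw [h2, pow_succ]
    field_simp
  · intro m hm
    have h2 : N - (N - m) = m := by omega
    refine ⟨?_, ?_⟩
    · rw [Sf_le _ _ _ _ _ (by omega), h2]
    · intro r _
      rw [Df_le _ _ _ _ _ _ (by omega), h2]

end SA.H54

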