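import Pool.Agent.Helper88_SA.StmtD

/-! One step of the upper bound of the range of y n / S (n+1). -/

namespace SA.H54

open SA

lemma Tlo_ge : (36.9547 : ℝ) ≤ Tlo := by
  unfold Tlo Tm
  norm_num

lemma Thi_le : Thi ≤ (36.9548 : ℝ) := by
  unfold Thi Tm
  norm_num

lemma geo_up (s : ℕ → ℝ) (h : ∀ l, s (l + 1) ≤ 0.9771 * s l) (l : ℕ) :
    s l ≤ 0.9771 ^ l * s 0 := by
  induction l with
  | zero => simp
  | succ l ih =>
    have h1 := h l
    have h2 : (0.9771 : ℝ) ^ (l + 1) * s 0 = 0.9771 * (0.9771 ^ l * s 0) := by rw [pow_succ]; ring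
    rw [h2]
    linarith

lemma geo_dn (s : ℕ → ℝ) (h : ∀ l, s l ≤ 1.0325 * s (l + 1)) (j m : ℕ) :
    s m ≤ 1.0325 ^ j * s (m + j) := by
  induction j with
  | zero => simp
  | succ j ih =>
    have h1 := h (m + j)
    have h2 : (1.0325 : ℝ) ^ (j + 1) * s (m + (j + 1)) = 1.0325 ^ j * (1.0325 * s (m + j + 1)) := by
      rw [pow_succ, ← add_assoc]; ring
    rw [h2]
    have h3 : (0 : ℝ) < 1.0325 ^ j := by positivity
    nlinarith

lemma gsum_le (m : ℕ) (h1 : 22 ≤ m) (h2 : m ≤ 42) :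
    ∑ l ∈ Finset.range m, (0.9771 : ℝ) ^ l ≤ 20.85 + ((m : ℝ) - 28) * 0.523 := by
  rw [geom_sum_eq (by norm_num)]
  interval_cases m <;> norm_num

lemma qsum_le : ∑ j ∈ Finset.range 24, (1.0325 : ℝ) ^ (24 - j) ≤ 36.7 := by
  norm_num [Finset.sum_range_succ]

/-- the numerical core -/
lemma core (T : ℝ) (hT1 : 36.9547 ≤ T) (hT2 : T ≤ 36.9548) (s Y : ℕ → ℝ) (hs : ∀ l, 0 < s l)
    (hY : ∀ l, s l = s (l + 1) + Y l / T)
    (hlo : ∀ l, 0.87 * s (l + 1) ≤ Y l) (hhi : ∀ l, Y l ≤ 1.2 * s (l + 1))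
    (k L w : ℕ) (hk1 : 46 ≤ k) (hk2 : k ≤ 56) (W : Finset ℕ) (hW : W ⊆ Finset.range L)
    (hL : L = (k - 46) + w) (hw : W.card = w) (hw10 : w ≤ 10) (hkw : k = 46 → w = 0) :
    ∑ l ∈ Finset.range (k + w), s l + ∑ l ∈ Finset.range (k + w), Y l - ∑ l ∈ W, Y l
      ≤ 1.2 * k * s 0 := by
  have hT0 : 0 < T := by linarith
  have hYT : ∀ l, Y l = T * (s l - s (l + 1)) := by
    intro l
    have := hY l
    field_simp at this
    linarith
  have hu : ∀ l, s (l + 1) ≤ 0.9771 * s l := by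
    intro l
    have h1 := hYT l
    have h2 := hlo l
    have h3 := hs (l + 1)
    have h4 := hs l
    have h5 : 0.87 * s (l + 1) ≤ T * (s l - s (l + 1)) := by rw [← h1]; exact h2
    have h7 : 0 < s l - s (l + 1) := by
      by_contra hc
      push Not at hc
      nlinarith
    have h6 : T * (s l - s (l + 1)) ≤ 36.9548 * (s l - s (l + 1)) :=
      mul_le_mul_of_nonneg_right hT2 h7.le
    linarith
  have hd : ∀ l, s l ≤ 1.0325 * s (l + 1) := by
    intro l
    have h1 := hYT l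
    have h2 := hhi l
    have h2' := hlo l
    have h3 := hs (l + 1)
    have h4 := hs l
    have h5 : T * (s l - s (l + 1)) ≤ 1.2 * s (l + 1) := by rw [← h1]; exact h2
    have h7 : 0 < s l - s (l + 1) := by
      by_contra hc
      push Not at hc
      nlinarith
    have h6 : 36.9547 * (s l - s (l + 1)) ≤ T * (s l - s (l + 1)) :=
      mul_le_mul_of_nonneg_right hT1 h7.le
    linarith
  -- telescoping
  have htel : ∑ l ∈ Finset.range (k + w), Y l = T * (s 0 - s (k + w)) := by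
    have : ∀ m, ∑ l ∈ Finset.range m, Y l = T * (s 0 - s m) := by
      intro m
      induction m with
      | zero => simp
      | succ m ih => rw [Finset.sum_range_succ, ih, hYT m]; ring
    exact this _
  -- split
  obtain ⟨m, hm⟩ : ∃ m, k + w = m + 24 := ⟨k + w - 24, by omega⟩
  have hsplit : ∑ l ∈ Finset.range (k + w), s l
      = ∑ l ∈ Finset.range m, s l + ∑ j ∈ Finset.range 24, s (m + j) := by
    rw [hm, Finset.sum_range_add]
  have h3 : ∑ j ∈ Finset.range 24, s (m + j) ≤ T * s (k + w) := by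
    have h31 : ∑ j ∈ Finset.range 24, s (m + j)
        ≤ ∑ j ∈ Finset.range 24, (1.0325 : ℝ) ^ (24 - j) * s (k + w) := by
      apply Finset.sum_le_sum
      intro j hj
      rw [Finset.mem_range] at hj
      have := geo_dn s hd (24 - j) (m + j)
      have he : m + j + (24 - j) = k + w := by omega
      rw [he] at this
      exact this
    rw [← Finset.sum_mul] at h31
    have h32 := qsum_le
    have h33 := hs (k + w)
    nlinarith
  have h4 : ∑ l ∈ Finset.range m, s l ≤ (20.85 + ((m : ℝ) - 28) * 0.523) * s 0 := by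
    have h41 : ∑ l ∈ Finset.range m, s l ≤ ∑ l ∈ Finset.range m, (0.9771 : ℝ) ^ l * s 0 := by
      apply Finset.sum_le_sum
      intro l _
      exact geo_up s hu l
    rw [← Finset.sum_mul] at h41
    have h42 := gsum_le m (by omega) (by omega)
    have h43 := hs 0
    nlinarith
  have h5 : 0.45 * (w : ℝ) * s 0 ≤ ∑ l ∈ W, Y l := by
    have h51 : ∀ l ∈ W, 0.45 * s 0 ≤ Y l := by
      intro l hl
      have hl2 := Finset.mem_range.1 (hW hl)
      have h52 := geo_dn s hd (l + 1) 0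
      rw [zero_add] at h52
      have h53 : (1.0325 : ℝ) ^ (l + 1) ≤ 1.0325 ^ 20 :=
        pow_le_pow_right₀ (by norm_num) (by omega)
      have h54 : (1.0325 : ℝ) ^ 20 ≤ 1.9 := by norm_num
      have h55 := hs (l + 1)
      have h56 : s 0 ≤ 1.9 * s (l + 1) := by nlinarith
      have h57 := hlo l
      linarith
    have := Finset.card_nsmul_le_sum W Y (0.45 * s 0) h51
    rw [hw, nsmul_eq_mul] at this
    linarith
  have hmk : (m : ℝ) = k + w - 24 := by
    have : ((k + w : ℕ) : ℝ) = ((m + 24 : ℕ) : ℝ) := by rw [hm]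
    push_cast at this
    linarith
  have hk1' : (46 : ℝ) ≤ k := by exact_mod_cast hk1
  have hk2' : (k : ℝ) ≤ 56 := by exact_mod_cast hk2
  have hw' : (w : ℝ) ≤ 10 := by exact_mod_cast hw10
  have hw0 : (0 : ℝ) ≤ w := Nat.cast_nonneg _
  have hfin : 20.85 + ((m : ℝ) - 28) * 0.523 + 36.9548 - 0.45 * w ≤ 1.2 * k := by
    rw [hmk]
    rcases Nat.lt_or_ge 46 k with h | h
    · have h47 : (47 : ℝ) ≤ k := by exact_mod_cast h
      linarith
    · have : k = 46 := by omega
      rw [hkw this]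
      subst this
      norm_num
  have h0 := hs 0
  rw [htel, hsplit]
  have h6 : T * (s 0 - s (k + w)) = T * s 0 - T * s (k + w) := by ring
  rw [h6]
  have h7 : T * s 0 ≤ 36.9548 * s 0 := mul_le_mul_of_nonneg_right hT2 h0.le
  have h8 := mul_le_mul_of_nonneg_right hfin h0.le
  nlinarith

theorem rup (hPath : PathStmt) (hLow : LowStmt) : RangeUpStmt := by
  intro T z κ N S y D hT1 hT2 hsol hκ hsep n hn H
  have hT1' : 36.9547 ≤ T := Tlo_ge.trans hT1
  have hT2' : T ≤ 36.9548 := hT2.trans Thi_le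
  have hk10 := hκ n hn
  obtain ⟨L, W, hW, hL, hW10, hW0, hD⟩ :=
    hPath T z κ N S y D hsol hκ hsep (n + 1) (56 - κ n) (by omega) (by omega) (by omega)
  have hlow := hLow T z κ N S y D hsol hκ (n + 1 + L) 46 (by omega) le_rfl
  have hyd := hsol.y_def n
  rw [hlow] at hD
  have hc := core T hT1' hT2' (fun l => S (n + 1 + l)) (fun l => y (n + 1 + l))
    (fun l => hsol.S_pos _) (fun l => hsol.S_step _)
    (fun l => (H (n + 1 + l) (by omega)).1) (fun l => (H (n + 1 + l) (by omega)).2)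
    (56 - κ n) L W.card (by omega) (by omega) W hW hL rfl hW10 hW0
  have hLk : 56 - κ n + W.card = L + 46 := by omega
  rw [hLk, Finset.sum_range_add, Finset.sum_range_add] at hc
  have hsd : ∑ l ∈ Finset.range L \ W, y (n + 1 + l)
      = ∑ l ∈ Finset.range L, y (n + 1 + l) - ∑ l ∈ W, y (n + 1 + l) := by
    rw [← Finset.sum_sdiff hW]
    ring
  rw [hsd, Finset.sum_add_distrib] at hD
  have hpos : (0 : ℝ) < ((56 - κ n : ℕ) : ℝ) := by
    have : 0 < 56 - κ n := by omega
    exact_mod_cast this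
  have h1 : ((56 - κ n : ℕ) : ℝ) * y n = D (n + 1) (56 - κ n) := by
    rw [hyd]
    field_simp
  simp only [add_zero, ← add_assoc] at hc
  have h2 : ((56 - κ n : ℕ) : ℝ) * y n ≤ 1.2 * ((56 - κ n : ℕ) : ℝ) * S (n + 1) := by
    rw [h1, hD]
    linarith
  have h3 : ((56 - κ n : ℕ) : ℝ) * (1.2 * S (n + 1) - y n) ≥ 0 := by linarith
  have h4 : 0 ≤ 1.2 * S (n + 1) - y n := by
    by_contra hcon
    push Not at hcon
    nlinarith
  linarith

end SA.H54

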